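import Mathlib
import Pool.Agent.TH878.FoldAlpha

/-!
# A badly approximable `α` for which `{n² α}` is not Poissonian

`α = 2/5 + ∑_{j ≥ 1} 1/q_j`, `q_0 = 5`, `q_{j+1} = 4 q_j²`, has all partial quotients at most `3`, so
`α` is of type `2`, the smallest possible type. The denominators `q_j`, `j ≥ 1`, of convergents are
perfect squares, and along `N_j ≈ q_j ^ (2/3)` all `k`-level correlations with `k ≥ 5` diverge and
the `4`-level correlation does not converge to its Poisson value.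
-/

set_option autoImplicit false

namespace Pool.Agent.Results.MP_0a44cb_nt.BadlyApproximable

open Filter Topology MeasureTheory Pool.Agent.TH878

/-- `x_n = {n² α}`, the fractional part of `n² α`. -/
noncomputable def x (α : ℝ) (n : ℕ) : ℝ := Int.fract ((n : ℝ) ^ 2 * α)

/-- The `k`-level correlation `R_k(f, N)` of `{n² α}` for `k = d + 1` and `f : ℝ^d → ℝ`:
`(1/N)` times the sum over pairwise distinct `n_0, …, n_d ∈ {1, …, N}` and over `m ∈ ℤ^d` of
`f (N (x_{n_0} - x_{n_1} + m_0), …, N (x_{n_{d-1}} - x_{n_d} + m_{d-1}))`. -/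
noncomputable def corr (d N : ℕ) (α : ℝ) (f : (Fin d → ℝ) → ℝ) : ℝ :=
  (1 / (N : ℝ)) *
    ∑ n ∈ (Fintype.piFinset fun _ : Fin (d + 1) => Finset.Icc 1 N).filter
        (fun n => Function.Injective n),
      ∑' m : Fin d → ℤ,
        f fun i => (N : ℝ) * (x α (n i.castSucc) - x α (n i.succ) + (m i : ℝ))

/-- `α` is of type `κ`. -/
def IsOfType (κ α : ℝ) : Prop :=
  ∃ C : ℝ, 0 < C ∧ ∀ a q : ℤ, 1 ≤ q → IsCoprime a q →
    C * (q : ℝ) ^ (-κ) ≤ |α - (a : ℝ) / (q : ℝ)|

lemma x_mem (α : ℝ) (n : ℕ) : 0 ≤ x α n ∧ x α n < 1 := ⟨Int.fract_nonneg _, Int.fract_lt_one _⟩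

lemma summable_inner (d N : ℕ) (hN : 1 ≤ N) (α : ℝ) (f : (Fin d → ℝ) → ℝ)
    (hf : HasCompactSupport f) (n : Fin (d + 1) → ℕ) :
    Summable fun m : Fin d → ℤ =>
      f fun i => (N : ℝ) * (x α (n i.castSucc) - x α (n i.succ) + (m i : ℝ)) := by
  obtain ⟨R, hR⟩ := hf.isCompact.isBounded.exists_norm_le
  apply summable_of_hasFiniteSupport
  refine (Set.finite_Icc (fun _ : Fin d => (-⌈R + 1⌉ : ℤ)) (fun _ => ⌈R + 1⌉)).subset ?_
  intro m hm
  rw [Function.mem_support] at hm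
  have h1 := hR _ (subset_tsupport f (Function.mem_support.mpr hm))
  have hNR : (1 : ℝ) ≤ N := by exact_mod_cast hN
  have h2 : ∀ i, |(m i : ℝ)| ≤ R + 1 := by
    intro i
    have h3 := (norm_le_pi_norm (fun i : Fin d =>
      (N : ℝ) * (x α (n i.castSucc) - x α (n i.succ) + (m i : ℝ))) i).trans h1
    simp only [Real.norm_eq_abs, abs_mul, Nat.abs_cast] at h3
    have h4 : |x α (n i.castSucc) - x α (n i.succ) + (m i : ℝ)| ≤ R := by
      have := abs_nonneg (x α (n i.castSucc) - x α (n i.succ) + (m i : ℝ))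
      nlinarith
    have h5 := x_mem α (n i.castSucc)
    have h6 := x_mem α (n i.succ)
    rw [abs_le] at h4 ⊢
    constructor <;> linarith [h4.1, h4.2, h5.1, h5.2, h6.1, h6.2]
  constructor
  · intro i
    have h := (abs_le.mp (h2 i)).1
    have h' : (-(⌈R + 1⌉ : ℤ) : ℝ) ≤ m i := by
      have := Int.le_ceil (R + 1)
      linarith
    exact_mod_cast h'
  · intro i
    have h := (abs_le.mp (h2 i)).2
    have h' : (m i : ℝ) ≤ (⌈R + 1⌉ : ℤ) := h.trans (Int.le_ceil _)
    exact_mod_cast h'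

lemma corr_lower (d N : ℕ) (hN : 1 ≤ N) (α : ℝ) (f : (Fin d → ℝ) → ℝ)
    (hf : HasCompactSupport f) (hf0 : ∀ y, 0 ≤ f y) (r η : ℝ)
    (hη : ∀ y : Fin d → ℝ, (∀ i, |y i| ≤ r) → η ≤ f y)
    (T : Finset (Fin (d + 1) → ℕ))
    (hT : T ⊆ (Fintype.piFinset fun _ : Fin (d + 1) => Finset.Icc 1 N).filter
        (fun n => Function.Injective n))
    (hcl : ∀ n ∈ T, ∀ i j, |x α (n i) - x α (n j)| ≤ r / N) :
    η * (T.card : ℝ) / N ≤ corr d N α f := by
  unfold corr
  have hNR : (0 : ℝ) < N := by exact_mod_cast hN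
  rw [div_eq_mul_one_div, mul_comm]
  refine mul_le_mul_of_nonneg_left ?_ (by positivity)
  refine le_trans ?_ (Finset.sum_le_sum_of_subset_of_nonneg hT
    (fun n _ _ => tsum_nonneg (fun m => hf0 _)))
  rw [Finset.card_eq_sum_ones, mul_comm]
  push_cast
  rw [Finset.sum_mul]
  refine Finset.sum_le_sum (fun n hn => ?_)
  have h1 := (summable_inner d N hN α f hf n).le_tsum (0 : Fin d → ℤ) (fun m _ => hf0 _)
  rw [one_mul]
  refine le_trans ?_ h1
  apply hη
  intro i
  simp only [Pi.zero_apply, Int.cast_zero, add_zero, abs_mul, Nat.abs_cast]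
  have h2 := hcl n hn i.castSucc i.succ
  have h3 := mul_le_mul_of_nonneg_left h2 hNR.le
  rwa [mul_div_cancel₀ _ hNR.ne'] at h3

/-- the cluster near `0` -/
lemma x_cluster (j u : ℕ) (ρ : ℝ) (hρ : ρ < 1)
    (hu : (u : ℝ) ^ 2 / (2 * (FoldCF.v j : ℝ) ^ 2) ≤ ρ) :
    0 ≤ x FoldCF.alpha (FoldCF.v j * u) ∧ x FoldCF.alpha (FoldCF.v j * u) ≤ ρ := by
  refine ⟨(x_mem _ _).1, ?_⟩
  obtain ⟨hb1, hb2⟩ := FoldCF.alpha_bounds (j + 1)
  have hv : (0 : ℝ) < FoldCF.v j := by exact_mod_cast FoldCF.v_pos j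
  have hq : (FoldCF.q (j + 1) : ℝ) = (FoldCF.v j : ℝ) ^ 2 := by
    rw [FoldCF.q_succ_eq]; push_cast; ring
  have hq2 : (FoldCF.q (j + 1 + 1) : ℝ) = 4 * ((FoldCF.v j : ℝ) ^ 2) ^ 2 := by
    rw [FoldCF.q_succ (j + 1), FoldCF.q_succ_eq]; push_cast; ring
  rw [hq2, hq] at hb2
  rw [hq] at hb1
  set V : ℝ := (FoldCF.v j : ℝ) with hV
  set P : ℝ := (FoldCF.p (j + 1) : ℝ) with hP
  set δ : ℝ := FoldCF.alpha - P / V ^ 2 with hδ
  have h1 : (((FoldCF.v j * u : ℕ) : ℝ)) ^ 2 * FoldCF.alpha =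
      (u : ℝ) ^ 2 * (V ^ 2 * δ) + (((u : ℤ) ^ 2 * FoldCF.p (j + 1) : ℤ) : ℝ) := by
    push_cast
    rw [hδ]
    field_simp
    ring
  have h2 : (u : ℝ) ^ 2 * (V ^ 2 * δ) ≤ ρ := by
    refine le_trans ?_ hu
    have h3 : V ^ 2 * δ ≤ V ^ 2 * (2 / (4 * (V ^ 2) ^ 2)) :=
      mul_le_mul_of_nonneg_left hb2 (by positivity)
    have h4 : V ^ 2 * (2 / (4 * (V ^ 2) ^ 2)) = 1 / (2 * V ^ 2) := by
      field_simp; norm_num
    rw [h4] at h3
    calc (u : ℝ) ^ 2 * (V ^ 2 * δ) ≤ u ^ 2 * (1 / (2 * V ^ 2)) :=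
          mul_le_mul_of_nonneg_left h3 (by positivity)
      _ = (u : ℝ) ^ 2 / (2 * V ^ 2) := by ring
  have h3 : 0 ≤ (u : ℝ) ^ 2 * (V ^ 2 * δ) := by positivity
  unfold x
  rw [h1, Int.fract_add_intCast, Int.fract_eq_self.mpr ⟨h3, by linarith⟩]
  exact h2

/-! ### the sequence `N_j` -/

/-- `T_j = ⌊v_j ^ (1/3)⌋` -/
def tt (j : ℕ) : ℕ := Nat.findGreatest (fun T => T ^ 3 ≤ FoldCF.v j) (FoldCF.v j)

lemma tt_le (j : ℕ) : tt j ^ 3 ≤ FoldCF.v j :=
  Nat.findGreatest_spec (P := fun T => T ^ 3 ≤ FoldCF.v j) (Nat.zero_le _) (by simp)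

lemma lt_tt (j : ℕ) : FoldCF.v j < (tt j + 1) ^ 3 := by
  by_contra h
  push Not at h
  have h1 : tt j + 1 ≤ (tt j + 1) ^ 3 := Nat.le_self_pow (by norm_num) _
  have h2 : tt j + 1 ≤ tt j :=
    Nat.le_findGreatest (P := fun T => T ^ 3 ≤ FoldCF.v j) (h1.trans h) h
  omega

lemma tt_tendsto : Tendsto tt atTop atTop := by
  rw [tendsto_atTop]
  intro b
  filter_upwards [eventually_ge_atTop (b ^ 3)] with j hj
  by_contra hlt
  push Not at hlt
  have h1 := lt_tt j
  have h2 : (tt j + 1) ^ 3 ≤ b ^ 3 := Nat.pow_le_pow_left hlt 3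
  have h3 := FoldCF.lt_v j
  omega

/-- `N_j = v_j T_j` -/
def NN (j : ℕ) : ℕ := FoldCF.v j * tt j

lemma NN_tendsto : Tendsto NN atTop atTop := by
  refine tendsto_atTop_mono (fun j => ?_) tt_tendsto
  exact Nat.le_mul_of_pos_left _ (FoldCF.v_pos j)

/-- lower bound for the correlations at `N_j` -/
lemma corr_lower' (d j s : ℕ) (hs : 1 ≤ s) (hT : 1 ≤ tt j) (f : (Fin d → ℝ) → ℝ)
    (hf : HasCompactSupport f) (hf0 : ∀ y, 0 ≤ f y) (η : ℝ) (hη0 : 0 ≤ η)
    (hη : ∀ y : Fin d → ℝ, (∀ i, |y i| ≤ 1 / (2 * (s : ℝ) ^ 2)) → η ≤ f y) :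
    η * ((tt j / s - d : ℕ) : ℝ) ^ (d + 1) / NN j ≤ corr d (NN j) FoldCF.alpha f := by
  classical
  set V := FoldCF.v j with hV
  set t := tt j with ht
  set U := t / s with hU
  have hv0 : 0 < V := FoldCF.v_pos j
  have hN1 : 1 ≤ NN j := Nat.mul_pos hv0 hT
  let g : (Fin (d + 1) ↪ Fin U) → (Fin (d + 1) → ℕ) := fun e i => V * ((e i : ℕ) + 1)
  have hg : Function.Injective g := by
    intro e e' h
    ext i
    have h1 := congrFun h i
    have h2 := Nat.eq_of_mul_eq_mul_left hv0 h1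
    omega
  let T : Finset (Fin (d + 1) → ℕ) := Finset.univ.image g
  have hcard : T.card = U.descFactorial (d + 1) := by
    rw [Finset.card_image_of_injective _ hg, Finset.card_univ, Fintype.card_embedding_eq]
    simp
  have hUt : U * s ≤ t := Nat.div_mul_le_self _ _
  have hUt' : U ≤ t := Nat.div_le_self _ _
  have hTsub : T ⊆ (Fintype.piFinset fun _ : Fin (d + 1) => Finset.Icc 1 (NN j)).filter
        (fun n => Function.Injective n) := by
    intro n hn
    obtain ⟨e, -, rfl⟩ := Finset.mem_image.mp hn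
    rw [Finset.mem_filter, Fintype.mem_piFinset]
    constructor
    · intro i
      rw [Finset.mem_Icc]
      constructor
      · exact Nat.mul_pos hv0 (by omega)
      · have : (e i : ℕ) + 1 ≤ t := by
          have := (e i).isLt
          omega
        exact Nat.mul_le_mul_left V this
    · intro i i' hii
      have h2 := Nat.eq_of_mul_eq_mul_left hv0 hii
      exact e.injective (Fin.ext (by omega))
  have hVR : (0 : ℝ) < V := by exact_mod_cast hv0
  have htR : (1 : ℝ) ≤ t := by exact_mod_cast hT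
  have hsR : (1 : ℝ) ≤ s := by exact_mod_cast hs
  have ht3 : (t : ℝ) ^ 3 ≤ V := by exact_mod_cast tt_le j
  have hNR : ((NN j : ℕ) : ℝ) = V * t := by unfold NN; push_cast; rfl
  have hcl : ∀ n ∈ T, ∀ i i', |x FoldCF.alpha (n i) - x FoldCF.alpha (n i')| ≤
      (1 / (2 * (s : ℝ) ^ 2)) / NN j := by
    intro n hn i i'
    obtain ⟨e, -, rfl⟩ := Finset.mem_image.mp hn
    have key : ∀ i : Fin (d + 1), 0 ≤ x FoldCF.alpha (g e i) ∧
        x FoldCF.alpha (g e i) ≤ (1 / (2 * (s : ℝ) ^ 2)) / NN j := by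
      intro i
      apply x_cluster j ((e i : ℕ) + 1)
      · rw [hNR, div_div, div_lt_one (by positivity)]
        have h1 : (1 : ℝ) ≤ (s : ℝ) ^ 2 := one_le_pow₀ hsR
        have hV1 : (1 : ℝ) ≤ V := by exact_mod_cast hv0
        have h2 : (1 : ℝ) ≤ V * t := by nlinarith
        nlinarith
      · have h1 : (((e i : ℕ) + 1 : ℕ) : ℝ) * s ≤ t := by
          have h2 : ((e i : ℕ) + 1) * s ≤ t := by
            have := (e i).isLt
            calc ((e i : ℕ) + 1) * s ≤ U * s := Nat.mul_le_mul_right _ (by omega)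
              _ ≤ t := hUt
          exact_mod_cast h2
        rw [hNR, div_div, div_le_div_iff₀ (by positivity) (by positivity)]
        set u : ℝ := (((e i : ℕ) + 1 : ℕ) : ℝ) with hu
        have hu0 : 0 ≤ u := by positivity
        have h3 : (u * s) ^ 2 ≤ t ^ 2 := pow_le_pow_left₀ (by positivity) h1 2
        have h4 : (u * s) ^ 2 * t ≤ t ^ 2 * t := mul_le_mul_of_nonneg_right h3 (by linarith)
        have h5 : (u * s) ^ 2 * t ≤ V := by
          refine h4.trans (le_trans (le_of_eq ?_) ht3)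
          ring
        calc u ^ 2 * (2 * (s : ℝ) ^ 2 * ((V : ℝ) * (t : ℝ)))
            = 2 * (V : ℝ) * ((u * s) ^ 2 * (t : ℝ)) := by ring
          _ ≤ 2 * (V : ℝ) * (V : ℝ) := mul_le_mul_of_nonneg_left h5 (by positivity)
          _ = 1 * (2 * (V : ℝ) ^ 2) := by ring
    have h8 := key i
    have h9 := key i'
    rw [abs_le]
    constructor <;> linarith [h8.1, h8.2, h9.1, h9.2]
  have h3 := corr_lower d (NN j) hN1 FoldCF.alpha f hf hf0 _ η hη T hTsub hcl
  refine le_trans ?_ h3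
  have hNpos : (0 : ℝ) < NN j := by exact_mod_cast hN1
  rw [hcard]
  refine div_le_div_of_nonneg_right ?_ hNpos.le
  refine mul_le_mul_of_nonneg_left ?_ hη0
  have h4 := Nat.pow_sub_le_descFactorial U (d + 1)
  have h5 : U + 1 - (d + 1) = U - d := by omega
  rw [h5] at h4
  exact_mod_cast h4

lemma NN_le (j : ℕ) : (NN j : ℝ) ≤ ((tt j : ℝ) + 1) ^ 3 * tt j := by
  have h := lt_tt j
  have h1 : NN j ≤ (tt j + 1) ^ 3 * tt j := Nat.mul_le_mul_right _ h.le
  exact_mod_cast h1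

lemma five (d : ℕ) (hd : 4 ≤ d) (f : (Fin d → ℝ) → ℝ) (hc : Continuous f)
    (hf : HasCompactSupport f) (hf0 : ∀ y, 0 ≤ f y) (hpos : 0 < f 0) :
    Tendsto (fun j => corr d (NN j) FoldCF.alpha f) atTop atTop := by
  -- a neighbourhood of `0` on which `f ≥ f 0 / 2`
  obtain ⟨r, hr, hball⟩ : ∃ r > 0, ∀ y : Fin d → ℝ, ‖y‖ < r → f 0 / 2 < f y := by
    have h1 : ∀ᶠ y in 𝓝 (0 : Fin d → ℝ), f 0 / 2 < f y :=
      hc.continuousAt.eventually (lt_mem_nhds (by linarith))
    rw [Metric.eventually_nhds_iff] at h1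
    obtain ⟨r, hr, h⟩ := h1
    exact ⟨r, hr, fun y hy => h (by rwa [dist_zero_right])⟩
  obtain ⟨s, hs⟩ := exists_nat_gt (1 / r)
  have hs0 : (0 : ℝ) < s := lt_trans (by positivity) hs
  have hs1 : 1 ≤ s := by exact_mod_cast hs0
  have hs1R : (1 : ℝ) ≤ s := by exact_mod_cast hs1
  have hη : ∀ y : Fin d → ℝ, (∀ i, |y i| ≤ 1 / (2 * (s : ℝ) ^ 2)) → f 0 / 2 ≤ f y := by
    intro y hy
    refine (hball y ?_).le
    have h1 : ‖y‖ ≤ 1 / (2 * (s : ℝ) ^ 2) :=
      (pi_norm_le_iff_of_nonneg (by positivity)).mpr (fun i => by simpa using hy i)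
    refine h1.trans_lt ?_
    rw [div_lt_iff₀ (by positivity)]
    rw [div_lt_iff₀ hr] at hs
    nlinarith
  set c : ℝ := f 0 / 2 / (8 * (2 * s) ^ (d + 1)) with hcdef
  have hc0 : 0 < c := by positivity
  have hlim : Tendsto (fun j => c * (tt j : ℝ)) atTop atTop :=
    (tendsto_natCast_atTop_atTop.comp tt_tendsto).const_mul_atTop hc0
  refine tendsto_atTop_mono' atTop ?_ hlim
  filter_upwards [tt_tendsto.eventually_ge_atTop (2 * s * (d + 1))] with j hj
  set t := tt j with ht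
  have ht1 : 1 ≤ t := le_trans (Nat.mul_pos (by omega) (by omega)) hj
  have h := corr_lower' d j s hs1 ht1 f hf hf0 (f 0 / 2) (by linarith) hη
  refine le_trans ?_ h
  rw [← ht]
  have htR : (1 : ℝ) ≤ t := by exact_mod_cast ht1
  have hNpos : (0 : ℝ) < NN j := by
    exact_mod_cast Nat.mul_pos (FoldCF.v_pos j) ht1
  -- the number of points
  have hU : (t : ℝ) / (2 * s) ≤ ((t / s - d : ℕ) : ℝ) := by
    have h1 : t < s * (t / s + 1) := by
      have := Nat.div_add_mod t s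
      have := Nat.mod_lt t (by omega : s > 0)
      rw [Nat.mul_add]
      omega
    have h2 : t ≤ 2 * s * (t / s - d) := by
      by_contra hcon
      push Not at hcon
      have h3 : t / s ≤ (t / s - d) + d := by omega
      have h4 : 2 * s * (t / s) ≤ 2 * s * ((t / s - d) + d) := Nat.mul_le_mul_left _ h3
      have h5 : 2 * s * ((t / s - d) + d) = 2 * s * (t / s - d) + 2 * s * d := by ring
      have h6 : s * (t / s + 1) = s * (t / s) + s := by ring
      have h7 : 2 * s * (t / s) = 2 * (s * (t / s)) := by ring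
      have h8 : 2 * s * (d + 1) = 2 * s * d + 2 * s := by ring
      omega
    rw [div_le_iff₀ (by positivity)]
    have h3 : ((t : ℕ) : ℝ) ≤ ((2 * s * (t / s - d) : ℕ) : ℝ) := by exact_mod_cast h2
    push_cast at h3
    linarith
  have hN := NN_le j
  rw [← ht] at hN
  have hN8 : (NN j : ℝ) ≤ 8 * (t : ℝ) ^ 4 := by
    refine hN.trans ?_
    have h1 : ((t : ℝ) + 1) ^ 3 ≤ (2 * t) ^ 3 := pow_le_pow_left₀ (by positivity) (by linarith) 3
    nlinarith
  rw [le_div_iff₀ hNpos]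
  calc c * t * NN j ≤ c * t * (8 * t ^ 4) := mul_le_mul_of_nonneg_left hN8 (by positivity)
    _ ≤ c * 8 * (t : ℝ) ^ (d + 1) := by
        have h1 : (t : ℝ) ^ 5 ≤ t ^ (d + 1) := pow_le_pow_right₀ htR (by omega)
        have h2 : c * t * (8 * (t : ℝ) ^ 4) = c * 8 * t ^ 5 := by ring
        rw [h2]
        exact mul_le_mul_of_nonneg_left h1 (by positivity)
    _ = f 0 / 2 * ((t : ℝ) / (2 * s)) ^ (d + 1) := by
        rw [hcdef, div_pow]
        field_simp
    _ ≤ f 0 / 2 * ((t / s - d : ℕ) : ℝ) ^ (d + 1) := by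
        refine mul_le_mul_of_nonneg_left ?_ (by linarith)
        exact pow_le_pow_left₀ (by positivity) hU _

/-- test function for the `4`-level correlation -/
noncomputable def tent (y : Fin 3 → ℝ) : ℝ := max 0 (1 - 25 * ‖y‖)

lemma tent_continuous : Continuous tent := by
  unfold tent; fun_prop

lemma tent_nonneg (y : Fin 3 → ℝ) : 0 ≤ tent y := le_max_left _ _

lemma tent_zero {y : Fin 3 → ℝ} (hy : y ∉ Metric.closedBall (0 : Fin 3 → ℝ) (1 / 25)) :
    tent y = 0 := by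
  rw [mem_closedBall_zero_iff] at hy
  push Not at hy
  exact max_eq_left (by linarith)

lemma tent_compact : HasCompactSupport tent := by
  refine HasCompactSupport.of_support_subset_isCompact
    (isCompact_closedBall (0 : Fin 3 → ℝ) (1 / 25)) ?_
  intro y hy
  by_contra h
  exact hy (tent_zero h)

lemma tent_integral : ∫ y, tent y ≤ 8 / 15625 := by
  have h1 : ∫ y, tent y = ∫ y in Metric.closedBall (0 : Fin 3 → ℝ) (1 / 25), tent y := by
    rw [setIntegral_eq_integral_of_forall_compl_eq_zero]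
    intro y hy
    exact tent_zero hy
  rw [h1]
  have hvol : volume (Metric.closedBall (0 : Fin 3 → ℝ) (1 / 25)) = ENNReal.ofReal (8 / 15625) := by
    rw [Real.volume_pi_closedBall _ (by norm_num)]
    simp only [Fintype.card_fin]
    norm_num
  have h2 : ∫ y in Metric.closedBall (0 : Fin 3 → ℝ) (1 / 25), tent y ≤
      ∫ _y in Metric.closedBall (0 : Fin 3 → ℝ) (1 / 25), (1 : ℝ) := by
    refine setIntegral_mono ?_ ?_ (fun y => ?_)
    · exact (tent_continuous.integrable_of_hasCompactSupport tent_compact).integrableOn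
    · refine integrableOn_const ?_
      rw [hvol]
      exact ENNReal.ofReal_ne_top
    · have := norm_nonneg y
      exact max_le zero_le_one (by linarith)
  refine h2.trans ?_
  rw [setIntegral_const, Measure.real, hvol, ENNReal.toReal_ofReal (by norm_num)]
  norm_num

lemma four : ∀ᶠ j in atTop, 3 / 5000 ≤ corr 3 (NN j) FoldCF.alpha tent := by
  have hη : ∀ y : Fin 3 → ℝ, (∀ i, |y i| ≤ 1 / (2 * ((5 : ℕ) : ℝ) ^ 2)) → 1 / 2 ≤ tent y := by
    intro y hy
    have h1 : ‖y‖ ≤ 1 / 50 := by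
      refine (pi_norm_le_iff_of_nonneg (by norm_num)).mpr (fun i => ?_)
      have := hy i
      rw [Real.norm_eq_abs]
      norm_num at this ⊢
      exact this
    refine le_trans ?_ (le_max_right _ _)
    linarith
  filter_upwards [tt_tendsto.eventually_ge_atTop 1000] with j hj
  have h := corr_lower' 3 j 5 (by norm_num) (by omega) tent tent_compact tent_nonneg (1 / 2)
    (by norm_num) hη
  refine le_trans ?_ h
  set t := tt j with ht
  have htR : (1000 : ℝ) ≤ t := by exact_mod_cast hj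
  have hNpos : (0 : ℝ) < NN j := by
    exact_mod_cast Nat.mul_pos (FoldCF.v_pos j) (by omega : 0 < tt j)
  have hU : ((t : ℝ) - 20) / 5 ≤ ((t / 5 - 3 : ℕ) : ℝ) := by
    have h1 : t ≤ 5 * (t / 5 - 3) + 20 := by omega
    have h2 : ((t : ℕ) : ℝ) ≤ ((5 * (t / 5 - 3) + 20 : ℕ) : ℝ) := by exact_mod_cast h1
    push_cast at h2
    linarith
  have hN := NN_le j
  rw [← ht] at hN
  rw [le_div_iff₀ hNpos]
  have h1 : (((t : ℝ) - 20) / 5) ^ (3 + 1) ≤ ((t / 5 - 3 : ℕ) : ℝ) ^ (3 + 1) :=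
    pow_le_pow_left₀ (by linarith) hU _
  have h2 : 3 / 5000 * (((t : ℝ) + 1) ^ 3 * t) ≤ 1 / 2 * (((t : ℝ) - 20) / 5) ^ (3 + 1) := by
    obtain ⟨z, hz⟩ : ∃ z : ℝ, (t : ℝ) = 1000 + z := ⟨t - 1000, by ring⟩
    have hz0 : 0 ≤ z := by linarith
    rw [hz]
    have : 0 ≤ 1 / 2 * ((1000 + z - 20) / 5) ^ (3 + 1) - 3 / 5000 * ((1000 + z + 1) ^ 3 * (1000 + z)) := by
      ring_nf
      positivity
    linarith
  calc 3 / 5000 * (NN j : ℝ) ≤ 3 / 5000 * (((t : ℝ) + 1) ^ 3 * t) :=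
        mul_le_mul_of_nonneg_left hN (by norm_num)
    _ ≤ 1 / 2 * (((t : ℝ) - 20) / 5) ^ (3 + 1) := h2
    _ ≤ 1 / 2 * ((t / 5 - 3 : ℕ) : ℝ) ^ (3 + 1) := mul_le_mul_of_nonneg_left h1 (by norm_num)

/-- There is an irrational `α` of type `2` (badly approximable) and a sequence `N_j → ∞` such that
for all `k = d + 1 ≥ 5` the `k`-level correlations of `{n² α}` along `N_j` diverge to `+∞` for every
nonnegative test function `f` with `f 0 > 0`, and the `4`-level correlation along `N_j` stays away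
from its Poisson value for some test function. Hence for every `k ≥ 4` some `R_k(f, N)` does not
converge to the integral of `f` as `N → ∞`. -/
theorem result : ∃ α : ℝ, Irrational α ∧ IsOfType 2 α ∧
    (∃ N : ℕ → ℕ, Tendsto N atTop atTop ∧
      (∀ d : ℕ, 4 ≤ d → ∀ f : (Fin d → ℝ) → ℝ, Continuous f → HasCompactSupport f →
        (∀ y, 0 ≤ f y) → 0 < f 0 → Tendsto (fun j => corr d (N j) α f) atTop atTop) ∧
      ∃ f : (Fin 3 → ℝ) → ℝ, Continuous f ∧ HasCompactSupport f ∧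
        ∃ c : ℝ, (∫ y, f y) < c ∧ ∀ᶠ j in atTop, c ≤ corr 3 (N j) α f) ∧
    ∀ d : ℕ, 3 ≤ d → ∃ f : (Fin d → ℝ) → ℝ, Continuous f ∧ HasCompactSupport f ∧
      ¬ Tendsto (fun N : ℕ => corr d N α f) atTop (𝓝 (∫ y, f y)) := by
  have h4 : (∫ y, tent y) < 3 / 5000 := lt_of_le_of_lt tent_integral (by norm_num)
  refine ⟨FoldCF.alpha, FoldCF.irrational_alpha, ⟨1 / 5, by norm_num, ?_⟩,
    ⟨NN, NN_tendsto, five, tent, tent_continuous, tent_compact, 3 / 5000, h4, four⟩, ?_⟩
  · intro a q hq _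
    have h := FoldCF.badly a q hq
    have hqR : (0 : ℝ) < q := by exact_mod_cast (by linarith : (0 : ℤ) < q)
    refine le_trans (le_of_eq ?_) h
    rw [Real.rpow_neg hqR.le, Real.rpow_two]
    field_simp
  · intro d hd
    rcases Nat.eq_or_lt_of_le hd with rfl | hd
    · refine ⟨tent, tent_continuous, tent_compact, fun hlim => ?_⟩
      have h1 := hlim.comp NN_tendsto
      have h2 : 3 / 5000 ≤ ∫ y, tent y := ge_of_tendsto h1 four
      linarith
    · let f : (Fin d → ℝ) → ℝ := fun y => max 0 (1 - ‖y‖)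
      have hfc : Continuous f := by
        show Continuous fun y : Fin d → ℝ => max 0 (1 - ‖y‖)
        fun_prop
      have hfs : HasCompactSupport f := by
        refine HasCompactSupport.of_support_subset_isCompact
          (isCompact_closedBall (0 : Fin d → ℝ) 1) ?_
        intro y hy
        by_contra h
        rw [mem_closedBall_zero_iff] at h
        push Not at h
        exact hy (max_eq_left (by linarith))
      refine ⟨f, hfc, hfs, fun hlim => ?_⟩
      have h1 := hlim.comp NN_tendsto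
      have h2 := five d hd f hfc hfs (fun y => le_max_left _ _) (by simp [f])
      exact not_tendsto_nhds_of_tendsto_atTop h2 _ h1

end Pool.Agent.Results.MP_0a44cb_nt.BadlyApproximable
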